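import Pool.Agent.Lib.MP_021685_agTAR.RD

/-! Definitions used in the statement of `MP_021685_ag.AlmostAll` (any number of Weil polynomials, of any degrees and for any
`q`). -/

set_option autoImplicit false

namespace TAF

open Polynomial

/-- The complex roots of `frobPoly q h`: the Weil numbers. -/
def Roots (q : ℕ) (h : ℤ[X]) : Set ℂ := {z | aeval z (TI.frobPoly q h) = 0}

/-- `ρ` is a root of a non-zero rational polynomial `f` such that `f` has degree less than `2 g`, or `f` has angle rank less than
`g` (modulo `Q`), or the splitting field of `f` in `ℂ` contains no member of `R`. -/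
def Foreign (Q : ℕ) (R : Set ℂ) (g : ℕ) (ρ : ℂ) : Prop :=
  ∃ f : ℚ[X], f ≠ 0 ∧ aeval ρ f = 0 ∧
    (f.natDegree < 2 * g ∨ TAR.RankLT Q g f ∨ ∀ z ∈ R, z ∉ IntermediateField.adjoin ℚ (f.rootSet ℂ))

/-- A power `y ^ N`, `N > 0`, is a product of numbers `ρ` with `Foreign Q R g ρ`. -/
def Small (Q : ℕ) (R : Set ℂ) (g : ℕ) (y : ℂ) : Prop :=
  ∃ N : ℕ, 0 < N ∧ y ^ N ∈ Submonoid.closure {ρ : ℂ | Foreign Q R g ρ}

/-- For every semisimple operator `F` on `V` with characteristic polynomial `P`, every extension degree `d > 0`, every
operator `G` on a space `W` all of whose eigenvalues have the property `S`, all `k` and `b`: all Tate forms on `V^k × W` over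
the extension of degree `d` (total weight `k + b`) are linear combinations of products of Tate pairings on `V` and one Tate form
on `W`. -/
def FullFor (Q : ℕ) (P : ℤ[X]) (S : ℂ → Prop) : Prop :=
  ∀ (V W : Type) [AddCommGroup V] [Module ℂ V] [FiniteDimensional ℂ V] [AddCommGroup W] [Module ℂ W]
    [FiniteDimensional ℂ W] (F : V →ₗ[ℂ] V) (G : W →ₗ[ℂ] W),
    Module.End.IsSemisimple F → F.charpoly = P.map (Int.castRingHom ℂ) →
      (∀ y, Module.End.HasEigenvalue G y → S y) →
        ∀ d k b : ℕ, 0 < d → ∀ T : MultilinearMap ℂ (fun _ : Fin k => V) (W →ₗ[ℂ] ℂ),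
          (∀ v w, T (fun a => (F ^ d) (v a)) (G w) = ((Real.sqrt Q : ℝ) : ℂ) ^ (d * (k + b)) * T v w) →
            T ∈ Submodule.span ℂ {T' : MultilinearMap ℂ (fun _ : Fin k => V) (W →ₗ[ℂ] ℂ) |
              TK.IsProdOver Q d k b F G T'}

/-- The property of the real Weil polynomials `t i`, of degree `g i` for the numbers `q i`.

* If all `q i` are equal to `Q`: for the product `P` of the `frobPoly Q (t i)` (the characteristic polynomial of the Frobenius
  of the product of abelian varieties `A i` with real Weil polynomial `t i`), all Tate forms are linear combinations of products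
  of pairings (`TI.Full`), and all those on the products with a space `W` all of whose Frobenius eigenvalues are, **for every
  `i`**, roots of products of algebraic numbers of degree less than `2 g i`, or of angle rank less than `g i`, or with a
  splitting field which contains no root of `frobPoly Q (t i)`, are linear combinations of products of pairings and one Tate
  form on `W` (`FullFor`).
* For all number fields `E i` generated by roots of the `frobPoly (q i) (t i)`:
  - the `E i` are CM fields of degree `2 g i`;
  - for all positive integers `Q`, all finite families of Weil numbers `a i k` in the `E i` for `Q` (`k` in a finite set `J i`),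
    and all monic integral polynomials `P` whose complex roots are the conjugates of the `a i k` (the characteristic polynomials
    of the Frobenius of the abelian varieties over a field with `Q` elements which are isogenous to products of powers of
    abelian varieties `A i k` with Frobenius `a i k`): if for every `i` the `a i k` are multiplicatively independent modulo `Q`,
    all Tate forms on the products with a space `W` are linear combinations of products of pairings and one Tate form on `W`, if
    all Frobenius eigenvalues on `W` are, for every `i` (with non-empty `J i`), roots of products of algebraic numbers of degree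
    less than `2 g i`, or of angle rank less than `g i`, or with a splitting field which contains no root of
    `frobPoly (q i) (t i)` (`FullFor`); conversely, if the `A i k` are not supersingular and not isogenous to each other over
    any extension, and if the Tate classes on the variety come from pairings (`TI.Full`), then for every `i` the `a i k` are
    multiplicatively independent modulo `Q`. -/
def AllTate {r : ℕ} (q g : Fin r → ℕ) (t : Fin r → ℤ[X]) : Prop :=
  (∀ Q : ℕ, 0 < Q → (∀ i, q i = Q) → TI.Full Q (∏ i, TI.frobPoly Q (t i)) ∧
    FullFor Q (∏ i, TI.frobPoly Q (t i)) fun y => ∀ i, Small Q (Roots Q (t i)) (g i) y) ∧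
  ∀ (E : Fin r → Type) [∀ i, Field (E i)] [∀ i, NumberField (E i)], (∀ i, HIA.IsFrobField (q i) (t i) (E i)) →
    (∀ i, NumberField.IsCMField (E i) ∧ Module.finrank ℚ (E i) = 2 * g i) ∧
    ∀ (Q : ℕ) (J : Fin r → Type) [∀ i, Fintype (J i)] (a : ∀ i, J i → E i) (P : ℤ[X]), 0 < Q → P.Monic →
      (∀ (i : Fin r) (k : J i) (φ : E i →+* ℂ), φ (a i k) * starRingEnd ℂ (φ (a i k)) = (Q : ℂ)) →
      (∀ z : ℂ, aeval z P = 0 ↔ ∃ (i : Fin r) (k : J i) (φ : E i →+* ℂ), φ (a i k) = z) →
        ((∀ i, TWF.IsIndep Q (a i)) →
          FullFor Q P fun y => ∀ i, Nonempty (J i) → Small Q (Roots (q i) (t i)) (g i) y) ∧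
        ((∀ i, TWF.IsDistinct Q (a i)) → TI.Full Q P → ∀ i, TWF.IsIndep Q (a i))

end TAF
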