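import Pool.Agent.Lib.MP_021685_agTAF.F1
import Pool.Agent.Lib.MP_021685_agTI.FM

/-! From products of pairings to the matching of eigenvalues. -/

set_option autoImplicit false

namespace TAF

open Polynomial

/-- The numbers `c` and `Q / c` appear equally often. -/
def Bal (Q : ℕ) {T : Type} [Fintype T] (z : T → ℂ) : Prop :=
  ∀ c : ℂ, Nat.card {t // z t = c} = Nat.card {t // z t = (Q : ℂ) / c}

theorem bal_of_pairing {Q : ℕ} (hQ : 0 < Q) {T : Type} [Fintype T] {z : T → ℂ} (σ : T ≃ T)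
    (h : ∀ t, z t * z (σ t) = (Q : ℂ)) : Bal Q z := by
  have hQC : (Q : ℂ) ≠ 0 := Nat.cast_ne_zero.2 hQ.ne'
  intro c
  refine Nat.card_congr (σ.subtypeEquiv fun t => ?_)
  have h1 := h t
  have hz : z t ≠ 0 := by
    intro h0
    rw [h0, zero_mul] at h1
    exact hQC h1.symm
  have hz' : z (σ t) ≠ 0 := by
    intro h0
    rw [h0, mul_zero] at h1
    exact hQC h1.symm
  constructor
  · rintro rfl
    rw [eq_div_iff hz, mul_comm]
    exact h1
  · intro h2
    have hc : c ≠ 0 := by
      rintro rfl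
      rw [div_zero] at h2
      exact hz' h2
    rw [h2, mul_div_assoc', div_eq_iff hc, mul_comm (z t)] at h1
    exact mul_left_cancel₀ hQC h1

private theorem F2_apply {ι : Type} [Fintype ι] [DecidableEq ι] (lam : ι → ℂ) (v : ι → ℂ) (i : ι) :
    Matrix.toLin' (Matrix.diagonal lam) v i = lam i * v i := by
  rw [Matrix.toLin'_apply, Matrix.mulVec_diagonal]

private theorem F2_single {ι : Type} [Fintype ι] [DecidableEq ι] (lam : ι → ℂ) (i : ι) :
    Matrix.toLin' (Matrix.diagonal lam) (Pi.single i 1) = lam i • (Pi.single i 1 : ι → ℂ) := by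
  funext j
  rw [F2_apply, Pi.smul_apply, smul_eq_mul]
  rcases eq_or_ne j i with h | h
  · rw [h]
  · rw [Pi.single_eq_of_ne h, mul_zero, mul_zero]

private theorem F2_semisimple {ι : Type} [Fintype ι] [DecidableEq ι] (lam : ι → ℂ) :
    Module.End.IsSemisimple (Matrix.toLin' (Matrix.diagonal lam)) := by
  classical
  have hsq : Squarefree (∏ z ∈ Finset.univ.image lam, (X - C z)) := by
    apply Polynomial.Separable.squarefree
    have := (Polynomial.separable_prod_X_sub_C_iff' (f := fun z : ℂ => z)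
      (s := Finset.univ.image lam)).2 fun x _ y _ h => h
    exact this
  refine Module.End.isSemisimple_of_squarefree_aeval_eq_zero hsq ?_
  apply (Pi.basisFun ℂ ι).ext
  intro i
  rw [Pi.basisFun_apply, LinearMap.zero_apply]
  have hne : (Pi.single i 1 : ι → ℂ) ≠ 0 := by
    intro h
    have h1 := congrFun h i
    rw [Pi.single_eq_same, Pi.zero_apply] at h1
    exact one_ne_zero h1
  have hev : Module.End.HasEigenvector (Matrix.toLin' (Matrix.diagonal lam)) (lam i)
      (Pi.single i 1 : ι → ℂ) :=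
    ⟨Module.End.mem_eigenspace_iff.2 (F2_single lam i), hne⟩
  rw [Module.End.aeval_apply_of_hasEigenvector hev, Polynomial.eval_prod]
  have h0 : ∏ z ∈ Finset.univ.image lam, Polynomial.eval (lam i) (X - C z) = 0 := by
    refine Finset.prod_eq_zero (Finset.mem_image_of_mem lam (Finset.mem_univ i)) ?_
    rw [Polynomial.eval_sub, Polynomial.eval_X, Polynomial.eval_C, sub_self]
  rw [h0, zero_smul]

/-- The matching of the factors of a relation, from `FullFor`. -/
theorem match_of_fullFor {q : ℕ} {P : ℤ[X]} {S : ℂ → Prop} (hF : FullFor q P S) {ι : Type} [Fintype ι] [DecidableEq ι]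
    {lam : ι → ℂ} (hP : P.map (Int.castRingHom ℂ) = ∏ i, (X - C (lam i))) {k : ℕ} (s : Fin k → ι) {y : ℂ} (hy : S y)
    {b : ℕ} (hs : (∏ a, lam (s a)) * y = ((Real.sqrt q : ℝ) : ℂ) ^ (k + b)) :
    ∃ (m : ℕ) (e : Fin m ⊕ Fin m ≃ Fin k), ∀ i,
      lam (s (e (Sum.inl i))) * lam (s (e (Sum.inr i))) = (q : ℂ) := by
  have hchar : (Matrix.toLin' (Matrix.diagonal lam)).charpoly = P.map (Int.castRingHom ℂ) := by
    rw [Matrix.charpoly_toLin', Matrix.charpoly_diagonal, hP]
  obtain ⟨T₀, hTv⟩ : ∃ T : MultilinearMap ℂ (fun _ : Fin k => ι → ℂ) ℂ,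
      ∀ v, T v = ∏ a, v a (s a) := by
    refine ⟨(MultilinearMap.mkPiAlgebra ℂ (Fin k) ℂ).compLinearMap
      fun a => (LinearMap.proj (s a) : (ι → ℂ) →ₗ[ℂ] ℂ), fun v => ?_⟩
    rw [MultilinearMap.compLinearMap_apply, MultilinearMap.mkPiAlgebra_apply]
    rfl
  have hspan := hF (ι → ℂ) ℂ (Matrix.toLin' (Matrix.diagonal lam)) (y • LinearMap.id) (F2_semisimple lam) hchar
    (fun y' hy' => by
      obtain ⟨w, hw⟩ := hy'.exists_hasEigenvector
      have h3 : y * w = y' * w := hw.apply_eq_smul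
      rw [← mul_right_cancel₀ hw.2 h3]
      exact hy) 1 k b one_pos (T₀.smulRight (LinearMap.id : ℂ →ₗ[ℂ] ℂ)) (fun v w => by
      rw [MultilinearMap.smulRight_apply, MultilinearMap.smulRight_apply, LinearMap.smul_apply, LinearMap.smul_apply,
        LinearMap.id_apply, LinearMap.smul_apply, LinearMap.id_apply, smul_eq_mul, smul_eq_mul, smul_eq_mul, hTv, hTv, pow_one,
        one_mul, ← hs]
      have h1 : ∏ a, (Matrix.toLin' (Matrix.diagonal lam)) (v a) (s a) = (∏ a, lam (s a)) * ∏ a, v a (s a) := by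
        rw [← Finset.prod_mul_distrib]
        exact Finset.prod_congr rfl fun a _ => F2_apply lam (v a) (s a)
      rw [h1]
      ring)
  by_contra hcon
  have hz : ∀ T' ∈ Submodule.span ℂ {T' : MultilinearMap ℂ (fun _ : Fin k => ι → ℂ) (ℂ →ₗ[ℂ] ℂ) |
      TK.IsProdOver q 1 k b (Matrix.toLin' (Matrix.diagonal lam)) (y • LinearMap.id) T'},
      T' (fun a => Pi.single (s a) 1) = 0 := by
    intro T' hT'
    induction hT' using Submodule.span_induction with
    | mem T₁ h =>
      obtain ⟨T₂, c, ⟨m, e, b', hb, hprod⟩, -, h4⟩ := h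
      refine LinearMap.ext fun w => ?_
      rw [h4, hprod, LinearMap.zero_apply]
      apply mul_eq_zero_of_left
      by_contra hne
      apply hcon
      refine ⟨m, e, fun i => ?_⟩
      have hi := Finset.prod_ne_zero_iff.1 hne i (Finset.mem_univ i)
      have h1 := hb i (Pi.single (s (e (Sum.inl i))) 1) (Pi.single (s (e (Sum.inr i))) 1)
      rw [pow_one, pow_one, F2_single, F2_single, map_smul, map_smul, LinearMap.smul_apply,
        smul_eq_mul, smul_eq_mul, ← mul_assoc] at h1
      have h2 := mul_right_cancel₀ hi h1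
      rw [mul_comm]
      exact h2
    | zero => rfl
    | add x y _ _ hx hy => rw [add_apply, hx, hy, add_zero]
    | smul c x _ hx => rw [smul_apply, hx, smul_zero]
  have h1 := LinearMap.congr_fun (hz _ hspan) 1
  rw [MultilinearMap.smulRight_apply, LinearMap.smul_apply, LinearMap.id_apply, hTv, LinearMap.zero_apply, smul_eq_mul,
    mul_one] at h1
  have h2 : ∏ a, (Pi.single (s a) (1 : ℂ) : ι → ℂ) (s a) = 1 :=
    Finset.prod_eq_one fun a _ => Pi.single_eq_same _ _
  rw [h2] at h1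
  exact one_ne_zero h1


/-- The matching of the factors of a relation between roots, from `FullFor`. -/
theorem match_of_fullFor' {q : ℕ} {P : ℤ[X]} {S : ℂ → Prop} (hF : FullFor q P S) (hm : P.Monic) {T : Type} [Fintype T]
    (z : T → ℂ) (hz : ∀ t, aeval (z t) P = 0) {y : ℂ} (hy : S y) {b : ℕ}
    (hs : (∏ t, z t) * y = ((Real.sqrt q : ℝ) : ℂ) ^ (Fintype.card T + b)) :
    ∃ (m : ℕ) (e : Fin m ⊕ Fin m ≃ T), ∀ i, z (e (Sum.inl i)) * z (e (Sum.inr i)) = (q : ℂ) := by
  classical
  set R : Multiset ℂ := (P.map (Int.castRingHom ℂ)).roots with hR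
  have hmon : (P.map (Int.castRingHom ℂ)).Monic := hm.map _
  have hsplit : (R.map fun a => X - C a).prod = P.map (Int.castRingHom ℂ) :=
    ((IsAlgClosed.splits (P.map (Int.castRingHom ℂ))).eq_prod_roots_of_monic hmon).symm
  let L : List ℂ := R.toList
  let lam : Fin L.length → ℂ := fun i => L.get i
  have hP : P.map (Int.castRingHom ℂ) = ∏ i, (X - C (lam i)) := by
    rw [← hsplit, ← Multiset.coe_toList R, Multiset.map_coe, Multiset.prod_coe]
    show _ = ∏ i : Fin L.length, (X - C (L.get i))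
    rw [← List.prod_ofFn, ← List.ofFn_get (L.map fun a => X - C a)]
    congr 1
    apply List.ext_get
    · simp
    · intro n h1 h2
      simp [L]
  have hmem : ∀ t, ∃ i, lam i = z t := fun t => by
    have h1 : z t ∈ R := by
      rw [hR, mem_roots hmon.ne_zero, IsRoot.def, eval_map, ← algebraMap_int_eq]
      exact hz t
    have h2 : z t ∈ L := Multiset.mem_toList.2 h1
    obtain ⟨n, hn⟩ := List.get_of_mem h2
    exact ⟨n, hn⟩
  choose i hi using hmem
  let e := Fintype.equivFin T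
  obtain ⟨m, e', he'⟩ := match_of_fullFor hF hP (fun a : Fin (Fintype.card T) => i (e.symm a)) hy (b := b) (by
    rw [← hs]
    congr 1
    refine (Finset.prod_congr rfl fun a _ => hi (e.symm a)).trans ?_
    exact Equiv.prod_comp e.symm z)
  refine ⟨m, e'.trans e.symm, fun x => ?_⟩
  have h1 := he' x
  rw [hi, hi] at h1
  exact h1

/-- No root is a square root of `Q`. -/
theorem sq_ne_of_fullFor {Q : ℕ} {P : ℤ[X]} {S : ℂ → Prop} (hF : FullFor Q P S) (hm : P.Monic) (h1 : S 1) (h2 : S (-1))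
    {z : ℂ} (hz : aeval z P = 0) : z ^ 2 ≠ (Q : ℂ) := by
  intro h
  have hs2 : ((Real.sqrt Q : ℝ) : ℂ) ^ 2 = (Q : ℂ) := by
    rw [← Complex.ofReal_pow, Real.sq_sqrt (Nat.cast_nonneg Q), Complex.ofReal_natCast]
  have h3 : ∃ y, S y ∧ z * y = ((Real.sqrt Q : ℝ) : ℂ) := by
    have h4 : (z - ((Real.sqrt Q : ℝ) : ℂ)) * (z + ((Real.sqrt Q : ℝ) : ℂ)) = 0 := by
      have h5 : (z - ((Real.sqrt Q : ℝ) : ℂ)) * (z + ((Real.sqrt Q : ℝ) : ℂ)) = z ^ 2 - ((Real.sqrt Q : ℝ) : ℂ) ^ 2 := by
        ring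
      rw [h5, h, hs2, sub_self]
    rcases mul_eq_zero.1 h4 with h5 | h5
    · exact ⟨1, h1, by rw [mul_one]; exact sub_eq_zero.1 h5⟩
    · exact ⟨-1, h2, by rw [eq_neg_of_add_eq_zero_left h5]; ring⟩
  obtain ⟨y, hy, h4⟩ := h3
  obtain ⟨m, e, -⟩ := match_of_fullFor' hF hm (T := Unit) (fun _ => z) (fun _ => hz) hy (b := 0) (by
    rw [Fintype.card_unit, add_zero, pow_one, ← h4, Fintype.prod_unique])
  have h5 := Fintype.card_congr e
  rw [Fintype.card_sum, Fintype.card_fin, Fintype.card_unit] at h5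
  omega

/-- One block of a relation. -/
theorem block_of_fullFor {Q : ℕ} (hQ : 0 < Q) {P : ℤ[X]} {S : ℂ → Prop} (hF : FullFor Q P S) (hm : P.Monic) {T : Type}
    [Fintype T] (z : T → ℂ) (hz : ∀ t, aeval (z t) P = 0) {y : ℂ} (hy : S y) {n b : ℕ} (hn : 0 < n)
    (hs : (∏ t, z t) ^ (2 * n) * y = (Q : ℂ) ^ (n * Fintype.card T + b)) :
    Bal Q z ∧ (∏ t, z t) ^ (2 * n) = (Q : ℂ) ^ (n * Fintype.card T) := by
  classical
  have hs2 : ((Real.sqrt Q : ℝ) : ℂ) ^ 2 = (Q : ℂ) := by
    rw [← Complex.ofReal_pow, Real.sq_sqrt (Nat.cast_nonneg Q), Complex.ofReal_natCast]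
  let z' : T × Fin (2 * n) → ℂ := fun t => z t.1
  have hprod : ∏ t, z' t = (∏ t, z t) ^ (2 * n) := by
    rw [Fintype.prod_prod_type, ← Finset.prod_pow]
    refine Finset.prod_congr rfl fun t _ => ?_
    show ∏ _y : Fin (2 * n), z t = _
    rw [Finset.prod_const, Finset.card_univ, Fintype.card_fin]
  have hcard : Fintype.card (T × Fin (2 * n)) = 2 * (n * Fintype.card T) := by
    rw [Fintype.card_prod, Fintype.card_fin]
    ring
  obtain ⟨m, e, he⟩ := match_of_fullFor' hF hm z' (fun t => hz t.1) hy (b := 2 * b) (by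
    rw [hprod, hs, hcard, ← mul_add, pow_mul, hs2])
  have hmn : m = n * Fintype.card T := by
    have h1 := Fintype.card_congr e
    rw [Fintype.card_sum, Fintype.card_fin, hcard] at h1
    omega
  refine ⟨?_, ?_⟩
  · have h1 : Bal Q z' := by
      refine bal_of_pairing hQ ((e.symm.trans (Equiv.sumComm _ _)).trans e) fun t => ?_
      obtain ⟨x, rfl⟩ := e.surjective t
      rcases x with x | x
      · simp only [Equiv.trans_apply, Equiv.symm_apply_apply, Equiv.sumComm_apply, Sum.swap_inl]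
        exact he x
      · simp only [Equiv.trans_apply, Equiv.symm_apply_apply, Equiv.sumComm_apply, Sum.swap_inr]
        rw [mul_comm]
        exact he x
    intro c
    have h2 : ∀ c : ℂ, Nat.card {t // z' t = c} = Nat.card {t // z t = c} * (2 * n) := by
      intro c
      have h3 : {t // z' t = c} ≃ {t // z t = c} × Fin (2 * n) :=
        { toFun := fun t => (⟨t.1.1, t.2⟩, t.1.2)
          invFun := fun t => ⟨(t.1.1, t.2), t.1.2⟩
          left_inv := fun t => rfl
          right_inv := fun t => rfl }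
      rw [Nat.card_congr h3, Nat.card_prod, Nat.card_fin]
    have h4 := h1 c
    rw [h2, h2] at h4
    exact Nat.eq_of_mul_eq_mul_right (by omega) h4
  · rw [← hprod, ← hmn, ← Equiv.prod_comp e, Fintype.prod_sum_type, ← Finset.prod_mul_distrib,
      Finset.prod_congr rfl fun i _ => he i, Finset.prod_const, Finset.card_univ, Fintype.card_fin]

end TAF
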