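import Pool.Agent.Lib.MP_021685_agTAF.F2

/-! Gluing of relations. -/

set_option autoImplicit false

namespace TAF

open Polynomial

theorem small_one (Q : ℕ) (R : Set ℂ) (g : ℕ) : Small Q R g 1 :=
  ⟨1, one_pos, by rw [one_pow]; exact Submonoid.one_mem _⟩

theorem small_neg_one (Q : ℕ) (R : Set ℂ) (g : ℕ) : Small Q R g (-1) :=
  ⟨2, two_pos, by rw [neg_one_sq]; exact Submonoid.one_mem _⟩

theorem small_mul {Q : ℕ} {R : Set ℂ} {g : ℕ} {y y' : ℂ} (h : Small Q R g y) (h' : Small Q R g y') :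
    Small Q R g (y * y') := by
  obtain ⟨N, hN, h1⟩ := h
  obtain ⟨N', hN', h1'⟩ := h'
  refine ⟨N * N', Nat.mul_pos hN hN', ?_⟩
  have h2 : (y * y') ^ (N * N') = (y ^ N) ^ N' * (y' ^ N') ^ N := by
    rw [mul_pow, ← pow_mul, ← pow_mul, Nat.mul_comm N' N]
  rw [h2]
  exact Submonoid.mul_mem _ (Submonoid.pow_mem _ h1 _) (Submonoid.pow_mem _ h1' _)

/-- A set of numbers which contains `1` and `-1` and is closed under products. -/
structure Closed (S : ℂ → Prop) : Prop where
  one : S 1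
  neg : S (-1)
  mul : ∀ y y', S y → S y' → S (y * y')

theorem closed_small (Q : ℕ) (R : Set ℂ) (g : ℕ) : Closed (Small Q R g) :=
  ⟨small_one Q R g, small_neg_one Q R g, fun _ _ h h' => small_mul h h'⟩

theorem Closed.imp {S : ℂ → Prop} (h : Closed S) (p : Prop) : Closed fun y => p → S y :=
  ⟨fun _ => h.one, fun _ => h.neg, fun y y' h1 h2 hp => h.mul y y' (h1 hp) (h2 hp)⟩

theorem Closed.pow {S : ℂ → Prop} (h : Closed S) {y : ℂ} (hy : S y) (n : ℕ) : S (y ^ n) := by
  induction n with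
  | zero => rw [pow_zero]; exact h.one
  | succ n ih => rw [pow_succ]; exact h.mul _ _ ih hy

theorem Closed.prod {S : ℂ → Prop} (h : Closed S) {T : Type} [Fintype T] {z : T → ℂ} (hz : ∀ t, S (z t)) :
    S (∏ t, z t) := by
  refine Finset.prod_induction z S h.mul h.one fun t _ => hz t

variable {r : ℕ} {Q : ℕ} {P : Fin r → ℤ[X]} {Sm : Fin r → ℂ → Prop}

theorem bal_glue (hQ : 0 < Q) (hm : ∀ i, (P i).Monic) (hcl : ∀ i, Closed (Sm i)) (hF : ∀ i, FullFor Q (P i) (Sm i))
    (hord : ∀ S : Finset (Fin r), S.Nonempty → ∃ i ∈ S, ∀ j ∈ S, j ≠ i → ∀ z : ℂ, aeval z (P j) = 0 → Sm i z)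
    (S : Finset (Fin r)) : ∀ (T : Type) [Fintype T] (z : T → ℂ), (∀ t, ∃ i ∈ S, aeval (z t) (P i) = 0) →
      ∀ y : ℂ, (∀ i, Sm i y) → ∀ n b : ℕ, 0 < n → (∏ t, z t) ^ (2 * n) * y = (Q : ℂ) ^ (n * Fintype.card T + b) →
        Bal Q z := by
  classical
  have hQC : (Q : ℂ) ≠ 0 := Nat.cast_ne_zero.2 hQ.ne'
  induction S using Finset.strongInduction with
  | H S ih =>
    intro T _ z hz y hy n b hn hs
    rcases S.eq_empty_or_nonempty with rfl | hS
    · have : IsEmpty T := ⟨fun t => by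
        obtain ⟨i, hi, -⟩ := hz t
        exact Finset.notMem_empty _ hi⟩
      intro c
      rw [Nat.card_of_isEmpty, Nat.card_of_isEmpty]
    · obtain ⟨i, hi, hj⟩ := hord S hS
      let p : T → Prop := fun t => aeval (z t) (P i) = 0
      have hp2 : ∀ t, ¬ p t → ∃ j ∈ S.erase i, aeval (z t) (P j) = 0 := by
        intro t ht
        obtain ⟨j, hjS, hzj⟩ := hz t
        refine ⟨j, Finset.mem_erase.2 ⟨?_, hjS⟩, hzj⟩
        rintro rfl
        exact ht hzj
      have hprod : ∏ t, z t = (∏ t : {t // p t}, z t.1) * ∏ t : {t // ¬ p t}, z t.1 :=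
        (Fintype.prod_subtype_mul_prod_subtype p z).symm
      have hcard : Fintype.card T = Fintype.card {t // p t} + Fintype.card {t // ¬ p t} := by
        rw [Fintype.card_subtype_compl]
        have := Fintype.card_subtype_le p
        omega
      have hy' : Sm i (y * (∏ t : {t // ¬ p t}, z t.1) ^ (2 * n)) := by
        refine (hcl i).mul _ _ (hy i) ((hcl i).pow ((hcl i).prod fun t => ?_) _)
        obtain ⟨j, hjS, hzj⟩ := hp2 t.1 t.2
        obtain ⟨hji, hjS'⟩ := Finset.mem_erase.1 hjS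
        exact hj j hjS' hji _ hzj
      obtain ⟨h1, h2⟩ := block_of_fullFor hQ (hF i) (hm i) (fun t : {t // p t} => z t.1) (fun t => t.2) hy'
        (b := n * Fintype.card {t // ¬ p t} + b) hn (by
          rw [← add_assoc, ← mul_add, ← hcard, ← hs, hprod, mul_pow]
          ring)
      have h3 := ih (S.erase i) (Finset.erase_ssubset hi) {t // ¬ p t} (fun t => z t.1) (fun t => hp2 t.1 t.2) y hy n b hn
        (by
          have h4 : (∏ t : {t // p t}, z t.1) ^ (2 * n) ≠ 0 := by
            rw [h2]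
            exact pow_ne_zero _ hQC
          apply mul_left_cancel₀ h4
          rw [← mul_assoc, ← mul_pow, ← hprod, hs, h2, hcard, ← pow_add]
          congr 1
          ring)
      intro c
      have h5 : ∀ c : ℂ, Nat.card {t // z t = c} =
          Nat.card {t : {t // p t} // z t.1 = c} + Nat.card {t : {t // ¬ p t} // z t.1 = c} := by
        intro c
        rw [← Nat.card_sum]
        refine Nat.card_congr ?_
        exact
          { toFun := fun t => if h : p t.1 then Sum.inl ⟨⟨t.1, h⟩, t.2⟩ else Sum.inr ⟨⟨t.1, h⟩, t.2⟩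
            invFun := fun t => match t with
              | Sum.inl t => ⟨t.1.1, t.2⟩
              | Sum.inr t => ⟨t.1.1, t.2⟩
            left_inv := by
              rintro ⟨t, ht⟩
              by_cases h : p t
              · simp only [h, dif_pos]
              · simp only [h, dif_neg, not_false_eq_true]
            right_inv := by
              rintro (⟨⟨t, h⟩, ht⟩ | ⟨⟨t, h⟩, ht⟩)
              · simp only [h, dif_pos]
              · simp only [h, dif_neg, not_false_eq_true] }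
      rw [h5, h5, h1 c, h3 c]

/-- Gluing. -/
theorem full_glue (hQ : 0 < Q) (hm : ∀ i, (P i).Monic) (hcl : ∀ i, Closed (Sm i)) (hF : ∀ i, FullFor Q (P i) (Sm i))
    (hord : ∀ S : Finset (Fin r), S.Nonempty → ∃ i ∈ S, ∀ j ∈ S, j ≠ i → ∀ z : ℂ, aeval z (P j) = 0 → Sm i z)
    (h0 : ∀ i (z : ℂ), aeval z (P i) = 0 → z ≠ 0) (Pt : ℤ[X])
    (hPt : ∀ z : ℂ, aeval z Pt = 0 → ∃ i, aeval z (P i) = 0) : FullFor Q Pt fun y => ∀ i, Sm i y := by
  classical
  refine full_of_match Q hQ Pt _ fun k d b z y hd hz hy hrel => ?_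
  have h1 := bal_glue hQ hm hcl hF hord Finset.univ (Fin k) z (fun t => by
    obtain ⟨i, hi⟩ := hPt _ (hz t)
    exact ⟨i, Finset.mem_univ _, hi⟩) (y ^ 2) (fun i => (hcl i).pow (hy i) 2) d (d * b) hd (by
    rw [Fintype.card_fin, hrel, mul_add])
  refine TI.matching z (Q : ℂ) (fun a => ?_) (fun a => ?_) fun a => ?_
  · obtain ⟨i, hi⟩ := hPt _ (hz a)
    exact h0 i _ hi
  · obtain ⟨i, hi⟩ := hPt _ (hz a)
    exact sq_ne_of_fullFor (hF i) (hm i) (hcl i).one (hcl i).neg hi
  · have h2 := h1 (z a)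
    rw [Nat.card_eq_fintype_card, Nat.card_eq_fintype_card, Fintype.card_subtype, Fintype.card_subtype] at h2
    exact h2

end TAF
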