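import Pool.Agent.Lib.MP_021685_agTAF.F4

/-! The gluing for any number of Weil polynomials. -/

set_option autoImplicit false

namespace TAF

open Polynomial Module Pool.Agent.Lib.MP_802513_ag

theorem fullFor_mono {Q : ℕ} {P : ℤ[X]} {S S' : ℂ → Prop} (h : ∀ y, S' y → S y) (hF : FullFor Q P S) :
    FullFor Q P S' :=
  fun V W _ _ _ _ _ _ F G hs hc hG => hF V W F G hs hc fun y hy => h y (hG y hy)

/-- The polynomial with the conjugates of the `a k` as roots. -/
theorem exists_poly {E J : Type} [Field E] [NumberField E] [Fintype J] (a : J → E) (ha : ∀ k, IsIntegral ℤ (a k)) :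
    ∃ P : ℤ[X], P.Monic ∧ ∀ z : ℂ, aeval z P = 0 ↔ ∃ (k : J) (φ : E →+* ℂ), φ (a k) = z := by
  refine ⟨∏ k, minpoly ℤ (a k), monic_prod_of_monic _ _ fun k _ => minpoly.monic (ha k), fun z => ?_⟩
  have h1 : ∀ k, aeval z (minpoly ℤ (a k)) = 0 ↔ ∃ φ : E →+* ℂ, φ (a k) = z := by
    intro k
    have h2 : aeval z (minpoly ℤ (a k)) = aeval z (minpoly ℚ (a k)) := by
      rw [minpoly.isIntegrallyClosed_eq_field_fractions' ℚ (ha k)]
      exact (aeval_map_algebraMap ℚ z (minpoly ℤ (a k))).symm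
    have h3 : aeval z (minpoly ℚ (a k)) = 0 ↔ z ∈ (minpoly ℚ (a k)).rootSet ℂ := by
      rw [mem_rootSet]
      exact ⟨fun h => ⟨minpoly.ne_zero_of_finite ℚ (a k), h⟩, fun h => h.2⟩
    rw [h2, h3, ← NumberField.Embeddings.range_eval_eq_rootSet_minpoly E ℂ (a k)]
    exact Set.mem_range
  rw [map_prod, Finset.prod_eq_zero_iff]
  constructor
  · rintro ⟨k, -, hk⟩
    exact ⟨k, (h1 k).1 hk⟩
  · rintro ⟨k, hk⟩
    exact ⟨k, Finset.mem_univ _, (h1 k).2 hk⟩

theorem isIntegral_of_root {E : Type} [Field E] [NumberField E] {P : ℤ[X]} (hm : P.Monic) {a : E} {φ : E →+* ℂ}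
    (h : aeval (φ a) P = 0) : IsIntegral ℤ a := by
  refine ⟨P, hm, ?_⟩
  have h1 : φ (aeval a P) = 0 := by rw [← HI.aeval_map_int]; exact h
  have h2 : aeval a P = 0 := by
    apply φ.injective
    rw [h1, map_zero]
  exact h2

theorem splitting_le {E : Type} [Field E] [NumberField E] {q : ℕ} {t : ℤ[X]} (hE : HIA.IsFrobField q t E) (a : E) :
    IntermediateField.adjoin ℚ ((minpoly ℚ a).rootSet ℂ) ≤ Spl q t := by
  rw [IntermediateField.adjoin_le_iff, ← NumberField.Embeddings.range_eval_eq_rootSet_minpoly E ℂ a]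
  rintro z ⟨φ, rfl⟩
  exact emb_mem hE φ a

variable {r : ℕ} {q g : Fin r → ℕ} {t : Fin r → ℤ[X]}

/-- The order of the polynomials. -/
theorem exists_last (ht : ∀ i, t i ∈ TI.Weil (q i) (g i))
    (hdeg : ∀ i (E : Type) [Field E] [NumberField E], HIA.IsFrobField (q i) (t i) E → finrank ℚ E = 2 * g i)
    (hne : ∀ i j, i ≠ j → g i = g j → Spl (q i) (t i) ≠ Spl (q j) (t j)) (S : Finset (Fin r)) (hS : S.Nonempty) :
    ∃ i ∈ S, ∀ j ∈ S, j ≠ i → g j < g i ∨ (g j = g i ∧ ∀ x ∈ Roots (q i) (t i), x ∉ Spl (q j) (t j)) := by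
  classical
  obtain ⟨i0, hi0, hmax⟩ := Finset.exists_max_image S g hS
  have hS' : (S.filter fun j => g j = g i0).Nonempty := ⟨i0, Finset.mem_filter.2 ⟨hi0, rfl⟩⟩
  obtain ⟨i, hi, hmaxL⟩ := Finset.exists_maximalFor (fun j => Spl (q j) (t j)) _ hS'
  obtain ⟨hiS, hgi⟩ := Finset.mem_filter.1 hi
  refine ⟨i, hiS, fun j hjS hji => ?_⟩
  have hgj : g j ≤ g i := by
    rw [hgi]
    exact hmax j hjS
  rcases lt_or_eq_of_le hgj with hlt | heq
  · exact Or.inl hlt
  · refine Or.inr ⟨heq, fun x hx hx' => ?_⟩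
    have h4 : Spl (q i) (t i) ≤ Spl (q j) (t j) := le_of_mem (ht i) (hdeg i) hx hx'
    have h5 : Spl (q j) (t j) ≤ Spl (q i) (t i) := hmaxL (Finset.mem_filter.2 ⟨hjS, heq.trans hgi⟩) h4
    exact hne i j (Ne.symm hji) heq.symm (le_antisymm h4 h5)

theorem small_of_last {q q' g g' : ℕ} {t t' : ℤ[X]} (Q : ℕ)
    (h : g' < g ∨ (g' = g ∧ ∀ x ∈ Roots q t, x ∉ Spl q' t')) {z : ℂ} {f : ℚ[X]} (hf0 : f ≠ 0) (hf : aeval z f = 0)
    (hd : f.natDegree ≤ 2 * g') (hs : IntermediateField.adjoin ℚ (f.rootSet ℂ) ≤ Spl q' t') :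
    Small Q (Roots q t) g z := by
  refine ⟨1, one_pos, ?_⟩
  rw [pow_one]
  refine Submonoid.subset_closure ⟨f, hf0, hf, ?_⟩
  rcases h with h | ⟨-, h⟩
  · left
    omega
  · right
    right
    exact fun x hx hx' => h x hx (hs hx')

/-- **Any finite number of Weil polynomials which are good alone.** -/
theorem glue (ht : ∀ i, t i ∈ TI.Weil (q i) (g i))
    (h : ∀ i, AllTate (fun _ : Fin 1 => q i) (fun _ => g i) (fun _ => t i))
    (hne : ∀ i j, i ≠ j → g i = g j →
      IntermediateField.adjoin ℚ (Roots (q i) (t i)) ≠ IntermediateField.adjoin ℚ (Roots (q j) (t j))) :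
    AllTate q g t := by
  classical
  have hdeg : ∀ i (E : Type) [Field E] [NumberField E], HIA.IsFrobField (q i) (t i) E → finrank ℚ E = 2 * g i :=
    fun i E _ _ hE => (((h i).2 (fun _ => E) fun _ => hE).1 0).2
  have hlast := exists_last ht hdeg hne
  refine ⟨fun Q hQ hq => ?_, fun E _ _ hE => ⟨fun i => ((h i).2 (fun _ => E i) fun _ => hE i).1 0,
    fun Q J _ a P hQ hm hW hP => ⟨fun hI => ?_, fun hD hFull i =>
      TWF.indep_of_full hQ (hW i) (hD i) hm (fun k φ => (hP _).2 ⟨i, k, φ, rfl⟩) hFull⟩⟩⟩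
  · have h1 : FullFor Q (∏ i, TI.frobPoly Q (t i)) fun y => ∀ i, Small Q (Roots Q (t i)) (g i) y := by
      refine full_glue hQ (P := fun i => TI.frobPoly Q (t i)) (Sm := fun i => Small Q (Roots Q (t i)) (g i))
        (fun i => (frob_monic Q (t i) (ht i).1).1) (fun i => closed_small Q _ (g i)) (fun i => ?_) (fun S hS => ?_)
        (fun i z hz => ?_) _ (fun z hz => ?_)
      · have h2 := ((h i).1 Q hQ (fun _ => hq i)).2
        rw [Fin.prod_univ_one] at h2
        exact fullFor_mono (fun y hy _ => hy) h2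
      · obtain ⟨i, hi, hj⟩ := hlast S hS
        refine ⟨i, hi, fun j hjS hji z hz => ?_⟩
        have h3 := hj j hjS hji
        rw [hq i, hq j] at h3
        have h4 := frob_monic Q (t j) (ht j).1
        refine small_of_last Q h3 (f := (TI.frobPoly Q (t j)).map (Int.castRingHom ℚ)) ((h4.1.map _).ne_zero) ?_ ?_ ?_
        · rw [← hz]
          exact aeval_map_algebraMap ℚ z (TI.frobPoly Q (t j))
        · refine natDegree_map_le.trans ?_
          rw [h4.2, (ht j).2.1]
        · refine IntermediateField.adjoin.mono ℚ _ _ fun x hx => ?_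
          have h5 := (mem_rootSet.1 hx).2
          show aeval x (TI.frobPoly Q (t j)) = 0
          rw [← h5]
          exact (aeval_map_algebraMap ℚ x (TI.frobPoly Q (t j))).symm
      · obtain ⟨x, -, hx⟩ := TI.frob_root Q hQ (t i) (ht i).1 z hz
        rintro rfl
        have hQC : (Q : ℂ) ≠ 0 := Nat.cast_ne_zero.2 hQ.ne'
        apply hQC
        linear_combination hx
      · rw [map_prod, Finset.prod_eq_zero_iff] at hz
        obtain ⟨i, -, hi⟩ := hz
        exact ⟨i, hi⟩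
    exact ⟨full_of_fullFor h1 fun i => small_one Q _ (g i), h1⟩
  · have hint : ∀ i k, IsIntegral ℤ (a i k) := by
      intro i k
      obtain ⟨φ⟩ : Nonempty (E i →+* ℂ) := inferInstance
      exact isIntegral_of_root hm (φ := φ) ((hP _).2 ⟨i, k, φ, rfl⟩)
    have hex := fun i => exists_poly (a i) (hint i)
    choose P' hm' hP' using hex
    refine full_glue hQ (P := P') (Sm := fun i y => Nonempty (J i) → Small Q (Roots (q i) (t i)) (g i) y)
      hm' (fun i => (closed_small Q _ (g i)).imp _) (fun i => ?_) (fun S hS => ?_) (fun i z hz => ?_) P (fun z hz => ?_)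
    · have h2 := (((h i).2 (fun _ => E i) fun _ => hE i).2 Q (fun _ => J i) (fun _ => a i) (P' i) hQ (hm' i)
        (fun _ => hW i) (fun z => (hP' i z).trans ⟨fun h3 => ⟨0, h3⟩, fun ⟨_, h3⟩ => h3⟩)).1 fun _ => hI i
      exact fullFor_mono (fun y hy _ => hy) h2
    · obtain ⟨i, hi, hj⟩ := hlast S hS
      refine ⟨i, hi, fun j hjS hji z hz _ => ?_⟩
      obtain ⟨k, φ, rfl⟩ := (hP' j z).1 hz
      refine small_of_last Q (hj j hjS hji) (f := minpoly ℚ (a j k)) (minpoly.ne_zero_of_finite ℚ (a j k)) ?_ ?_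
        (splitting_le (hE j) (a j k))
      · have h3 : φ (a j k) ∈ (minpoly ℚ (a j k)).rootSet ℂ := by
          rw [← NumberField.Embeddings.range_eval_eq_rootSet_minpoly (E j) ℂ (a j k)]
          exact ⟨φ, rfl⟩
        exact (mem_rootSet.1 h3).2
      · rw [← hdeg j (E j) (hE j)]
        exact minpoly.natDegree_le (a j k)
    · obtain ⟨k, φ, rfl⟩ := (hP' i z).1 hz
      intro h0
      have h3 := hW i k φ
      rw [h0, zero_mul] at h3
      exact Nat.cast_ne_zero.2 hQ.ne' h3.symm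
    · obtain ⟨i, k, φ, hφ⟩ := (hP z).1 hz
      exact ⟨i, (hP' i z).2 ⟨k, φ, hφ⟩⟩

end TAF
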