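import Pool.Agent.Lib.MP_021685_agTAF.F1
import Pool.Agent.Lib.MP_021685_agTAF.F2
import Pool.Agent.Lib.MP_021685_agTAR.R4
import Pool.Agent.Lib.MP_021685_agTAR.R5
import Pool.Agent.Lib.MP_802513_agHI.H6
import Pool.Agent.Lib.MP_021685_agTI.FMain

/-! One good polynomial alone. -/

set_option autoImplicit false

namespace TAF

open Polynomial TI

private theorem F5_all {q g r : ℕ} (hq : 0 < q) (hg3 : 3 ≤ g) {t : Fin r → ℤ[X]} (hG : GoodT q g t) :
    Full q (∏ i, frobPoly q (t i)) ∧ TAR.FullOver q (∏ i, frobPoly q (t i)) g ∧ TAR.AllWeil q g t := by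
  have hC : TAR.AllWeil q g t := TAR.allWeil_of_crit hq (by omega) (HI.crit_of_good hg3 hG)
  obtain ⟨hW, hirr, l, hl, hlg, hlq, h1, h2, hsep, hj⟩ := hG
  have hcube : 2 * g + 1 < g ^ 3 := by nlinarith [hg3, sq_nonneg (g - 1 : ℤ)]
  have hlg' : ∀ i, 2 * g + 1 < l i := fun i => hcube.trans (hlg i)
  exact ⟨criterion hq t (fun i => (hW i).1) (fun i => (hW i).2.1) hirr l hl hlg' hlq h1 h2 hsep hj,
    TAR.criterionOver hq (by omega) t (fun i => (hW i).1) (fun i => (hW i).2.1) hirr l hl hlg' hlq h1 h2 hsep hj, hC⟩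

/-- A weaker property of the eigenvalues. -/
private theorem F5_mono {Q g : ℕ} {R : Set ℂ} {P : ℤ[X]} {y : ℂ}
    (h : ∀ L : IntermediateField ℚ ℂ, (∀ z ∈ R, z ∉ L) → ∀ z : ℂ, aeval z P = 0 → z ∉ L) (hy : Small Q R g y) :
    TAR.Small Q P g y := by
  obtain ⟨N, hN, hyN⟩ := hy
  refine ⟨N, hN, Submonoid.closure_mono ?_ hyN⟩
  rintro ρ ⟨f, hf0, hf, h1 | h1 | h1⟩
  · exact ⟨f, hf0, hf, Or.inl h1⟩
  · exact ⟨f, hf0, hf, Or.inr (Or.inl h1)⟩
  · exact ⟨f, hf0, hf, Or.inr (Or.inr (h _ h1))⟩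

private theorem F5_mem {F : Type} [Field F] [NumberField F] (L : IntermediateField ℚ ℂ) (φ : F →+* ℂ) {a : F}
    (htop : IntermediateField.adjoin ℚ {a} = ⊤) (h : φ a ∈ L) (e : F) : φ e ∈ L := by
  let ψ : F →ₐ[ℚ] ℂ := φ.toRatAlgHom
  have h1 : (⊤ : IntermediateField ℚ F) ≤ L.comap ψ := by
    rw [← htop, IntermediateField.adjoin_le_iff]
    rintro x rfl
    exact h
  exact h1 (IntermediateField.mem_top (x := e))

/-- The members of an independent family generate the field. -/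
private theorem F5_gen {F : Type} [Field F] [NumberField F] {Q g : ℕ} {P : ℤ[X]} (hm : P.Monic)
    (hF : TAR.FullOver Q P g) (hd : Module.finrank ℚ F = 2 * g) {a : F} (φ : F →+* ℂ)
    (ha : φ a * starRingEnd ℂ (φ a) = (Q : ℂ)) (hz : aeval (φ a) P = 0) : IntermediateField.adjoin ℚ {a} = ⊤ := by
  rw [Field.primitive_element_iff_minpoly_natDegree_eq]
  by_contra hne
  have hint : IsIntegral ℚ a := Algebra.IsIntegral.isIntegral a
  have hlt : (minpoly ℚ a).natDegree < 2 * g := by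
    rw [← hd]
    exact lt_of_le_of_ne (minpoly.natDegree_le a) hne
  have hsm : TAR.Small Q P g (starRingEnd ℂ (φ a)) := by
    refine ⟨1, one_pos, ?_⟩
    rw [pow_one]
    refine Submonoid.subset_closure ⟨minpoly ℚ a, minpoly.ne_zero hint, ?_, Or.inl hlt⟩
    let ψ : F →ₐ[ℚ] ℂ := ((starRingEnd ℂ).comp φ).toRatAlgHom
    have h1 : aeval (ψ a) (minpoly ℚ a) = ψ (aeval a (minpoly ℚ a)) := aeval_algHom_apply ψ a _
    rw [minpoly.aeval, map_zero] at h1
    exact h1
  have hF' : FullFor Q P (TAR.Small Q P g) := hF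
  have hs2 : ((Real.sqrt Q : ℝ) : ℂ) ^ 2 = (Q : ℂ) := by
    rw [← Complex.ofReal_pow, Real.sq_sqrt (Nat.cast_nonneg Q), Complex.ofReal_natCast]
  obtain ⟨m, e, -⟩ := match_of_fullFor' hF' hm (T := Unit) (fun _ => φ a) (fun _ => hz) hsm (b := 1) (by
    rw [Finset.prod_const, Finset.card_univ, Fintype.card_unit, pow_one, ha, ← hs2])
  have h := Fintype.card_congr e
  rw [Fintype.card_sum, Fintype.card_fin, Fintype.card_unit] at h
  omega

/-- One good polynomial alone. -/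
theorem alone_of_good {q g : ℕ} (hq : 0 < q) (hg3 : 3 ≤ g) {t : Fin 1 → ℤ[X]} (hG : TI.GoodT q g t) :
    AllTate (fun _ : Fin 1 => q) (fun _ => g) t := by
  obtain ⟨hfull, hover, hall⟩ := F5_all hq hg3 hG
  refine ⟨?_, ?_⟩
  · intro Q hQ hqQ
    obtain rfl : q = Q := hqQ 0
    refine ⟨hfull, ?_⟩
    intro V W _ _ _ _ _ _ F G hF hc hG'
    refine hover V W F G hF hc fun y hy => F5_mono (fun L hL z hz => ?_) (hG' y hy 0)
    rw [Fin.prod_univ_one] at hz
    exact hL z hz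
  · intro E _ _ hE
    obtain ⟨hcm, hfam⟩ := hall E hE
    refine ⟨hcm, fun Q J _ a P hQ hm hW hP => ?_⟩
    obtain ⟨h1, h2⟩ := hfam Q J a P hQ hm hW hP
    refine ⟨fun hI => ?_, h2⟩
    have hF := h1 hI
    rcases isEmpty_or_nonempty (J 0) with hJ | hJ
    · refine full_of_match Q hQ P _ fun k d b z y hd hz hy hrel => ?_
      have hk : k = 0 := by
        by_contra hk
        obtain ⟨i, k', φ, -⟩ := (hP _).1 (hz ⟨0, Nat.pos_of_ne_zero hk⟩)
        have hi : i = 0 := Subsingleton.elim _ _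
        subst hi
        exact hJ.false k'
      subst hk
      exact ⟨0, Equiv.equivOfIsEmpty _ _, fun i => i.elim0⟩
    · intro V W _ _ _ _ _ _ F G hF' hc hG'
      refine hF V W F G hF' hc fun y hy => F5_mono (fun L hL z hz hzL => ?_) (hG' y hy 0 hJ)
      obtain ⟨i, k, φ, rfl⟩ := (hP z).1 hz
      have hi : i = 0 := Subsingleton.elim _ _
      subst hi
      have hgen := F5_gen hm hF (hcm 0).2 φ (hW 0 k φ) hz
      obtain ⟨c, hc0, -⟩ := hE 0
      refine hL (φ c) ?_ (F5_mem L φ hgen hzL c)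
      show aeval (φ c) (TI.frobPoly q (t 0)) = 0
      rw [HI.aeval_map_int, hc0, map_zero]

end TAF
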