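import Pool.Agent.Lib.MP_021685_agTAF.F5
import Pool.Agent.Lib.MP_021685_agTAF.F6
import Pool.Agent.Lib.MP_021685_agTAF.F7
import Pool.Agent.Lib.MP_021685_agTR.R15
import Pool.Agent.Lib.MP_802513_agHI.H6

/-! The main theorem: any number of Weil polynomials. -/

set_option autoImplicit false

namespace TAF

open Polynomial TI

/-- The members of a good tuple are good. -/
theorem good_single {q g r : ℕ} {t : Fin r → ℤ[X]} (hG : GoodT q g t) (i : Fin r) : GoodT q g (fun _ : Fin 1 => t i) := by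
  obtain ⟨hW, hirr, l, hl, hlg, hlq, h1, h2, hsep, -⟩ := hG
  exact ⟨fun _ => hW i, fun _ => hirr i, fun _ => l i, fun _ => hl i, fun _ => hlg i, fun _ => hlq i, fun _ => h1 i,
    fun _ => h2 i, fun _ _ => hsep i i, fun a b hab => absurd (Subsingleton.elim b a) hab⟩

/-- The property of a good tuple. -/
theorem allTate_of_good {q g r : ℕ} (hq : 0 < q) (hg3 : 3 ≤ g) {t : Fin r → ℤ[X]} (hG : GoodT q g t) :
    AllTate (fun _ => q) (fun _ => g) t :=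
  glue hG.1 (fun i => alone_of_good hq hg3 (good_single hG i)) fun _ _ hij _ =>
    adjoin_ne_of_crit hq (HI.crit_of_good hg3 hG) hij

/-- One hundred per cent of the `r`-tuples of members of any set `Y` of real Weil polynomials of density at least `δ`; the
constant does not depend on `r`, `δ` and `Y`. -/
theorem main (q : ℕ) (hq : 2 ≤ q) (p : ℕ) (hp : 2 ≤ p) : ∃ C : ℝ, ∃ g₀ : ℕ, ∀ g : ℕ, g₀ ≤ g →
    (Weil q g).Finite ∧ 0 < (Weil q g).ncard ∧
      (Weil q g).ncard ≤ 3 * ({h | h ∈ Weil q g ∧ ¬ (p : ℤ) ∣ h.coeff 0} : Set ℤ[X]).ncard ∧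
      ∀ (δ : ℝ) (Y : Set ℤ[X]), 0 < δ → Y ⊆ Weil q g → δ * ((Weil q g).ncard : ℝ) ≤ (Y.ncard : ℝ) → ∀ r : ℕ,
        (({t : Fin r → ℤ[X] | (∀ i, t i ∈ Y) ∧ ¬ AllTate (fun _ => q) (fun _ => g) t}).ncard : ℝ) ≤
          C * r * Real.log g / (δ * g) * (Y.ncard : ℝ) ^ r := by
  obtain ⟨C, _, g₁, hg₁, H⟩ := TR.good_tuples_any q hq
  obtain ⟨g₂, _, H₂⟩ := TQ.ord_count q hq p hp
  refine ⟨C, max g₁ g₂, fun g hg => ?_⟩
  have hgg₁ : g₁ ≤ g := (le_max_left _ _).trans hg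
  obtain ⟨hf, hpos, hc⟩ := H g hgg₁
  refine ⟨hf, hpos, H₂ g ((le_max_right _ _).trans hg), fun δ Y hδ hY hδY r => le_trans ?_ (hc δ Y hδ hY hδY r)⟩
  have hYf : Y.Finite := hf.subset hY
  have hfin : {t : Fin r → ℤ[X] | (∀ i, t i ∈ Y) ∧ ¬ GoodT q g t}.Finite := by
    apply Set.Finite.subset (Set.Finite.pi' (fun _ : Fin r => hYf))
    rintro t ⟨hty, -⟩
    exact hty
  have hsub : {t : Fin r → ℤ[X] | (∀ i, t i ∈ Y) ∧ ¬ AllTate (fun _ => q) (fun _ => g) t} ⊆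
      {t : Fin r → ℤ[X] | (∀ i, t i ∈ Y) ∧ ¬ GoodT q g t} := by
    rintro t ⟨hty, hn⟩
    exact ⟨hty, fun hG => hn (allTate_of_good (by omega) (hg₁.trans hgg₁) hG)⟩
  exact_mod_cast Set.ncard_le_ncard hsub hfin

end TAF
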